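import Pool.Agent.Helper66_D1.Stmts
import Pool.Agent.Helper66_CY.Brk

/-!
# Squad PP, part D1, module IND: `V^P / (∑ P) V` determines `V`
-/

open scoped BigOperators

noncomputable section

namespace Pool.Agent.PP.H46

open Pool.Agent.PP Pool.Agent.Helper51_AWC Pool.Agent.Helper79_WRA

variable {F : Type} [Field F] {G : Type} [Group G]

theorem evV_mrep [Finite G] {n : ℕ} (σ : G →* Matrix (Fin n) (Fin n) F) (b : G → F)
    (v : Fin n → F) : evV (mrep σ) b v = (ev σ b).mulVec v := by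
  have := Fintype.ofFinite G
  unfold evV ev
  rw [finsum_eq_sum_of_fintype, finsum_eq_sum_of_fintype, LinearMap.sum_apply, Matrix.sum_mulVec]
  refine Finset.sum_congr rfl fun g _ => ?_
  rw [LinearMap.smul_apply, Matrix.smul_mulVec]
  rfl

theorem nrm_le_fix [Finite G] {V : Type} [AddCommGroup V] [Module F V] (ρ : Representation F G V)
    (P : Subgroup G) : nrmV ρ P ≤ fixV ρ P := by
  have := Fintype.ofFinite P
  rintro _ ⟨v, rfl⟩ p hp
  rw [finsum_eq_sum_of_fintype, LinearMap.sum_apply, map_sum]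
  refine Fintype.sum_equiv (Equiv.mulLeft (⟨p, hp⟩ : P)) _ _ fun q => ?_
  rw [Equiv.coe_mulLeft, Subgroup.coe_mul, map_mul]
  rfl

theorem fix_stab {V : Type} [AddCommGroup V] [Module F V] (ρ : Representation F G V)
    (P : Subgroup G) {x : G} (hx : x ∈ Subgroup.normalizer (P : Set G)) {v : V}
    (hv : v ∈ fixV ρ P) : ρ x v ∈ fixV ρ P := by
  intro p hp
  have h1 : x⁻¹ * p * x ∈ P := by
    have := (Subgroup.mem_normalizer_iff.1 (inv_mem hx) p).1 hp
    rwa [inv_inv] at this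
  have h2 : p * x = x * (x⁻¹ * p * x) := by group
  rw [← Module.End.mul_apply, ← map_mul, h2, map_mul, Module.End.mul_apply, hv _ h1]

/-- a `G`-stable subspace is stable under all matrices -/
theorem stab_all {n : ℕ} {σ : G →* Matrix (Fin n) (Fin n) F} (hσ : IsIrr σ)
    {W : Submodule F (Fin n → F)} (hW : ∀ g, ∀ v ∈ W, (σ g).mulVec v ∈ W) {v : Fin n → F}
    (hv : v ∈ W) (hv0 : v ≠ 0) : W = ⊤ := by
  rw [eq_top_iff]
  intro w _
  obtain ⟨A, rfl⟩ := CY66.exists_mulVec hv0 w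
  have hA : A ∈ Submodule.span F (Set.range σ) := by rw [hσ.2]; trivial
  induction hA using Submodule.span_induction with
  | mem x hx =>
    obtain ⟨g, rfl⟩ := hx
    exact hW g v hv
  | zero => rw [Matrix.zero_mulVec]; exact W.zero_mem
  | add x y _ _ hx hy =>
    rw [Matrix.add_mulVec]
    exact W.add_mem (hx trivial) (hy trivial)
  | smul a x _ hx =>
    rw [Matrix.smul_mulVec]
    exact W.smul_mem _ (hx trivial)

theorem ind_core (hsoc : SocStmt) (hkey : KeyStmt) {ℓ : ℕ} [Fact ℓ.Prime] (hF : GoodF ℓ F)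
    [Finite G] {N P : Subgroup G} {b : G → F} (hb : D1S ℓ N P b) {A : Type} [Group A]
    {j : A →* G} (hj : j.range = Subgroup.normalizer (P : Set G)) {n n' : ℕ}
    {σ : G →* Matrix (Fin n) (Fin n) F} {σ' : G →* Matrix (Fin n') (Fin n') F} (hσ : IsIrr σ)
    (hσ' : IsIrr σ') (hσb : ev σ b = 1) (hσb' : ev σ' b = 1) {m : ℕ}
    {κ : A →* Matrix (Fin m) (Fin m) F} (hm : 0 < m) {π : (Fin n → F) →ₗ[F] (Fin m → F)}
    {π' : (Fin n' → F) →ₗ[F] (Fin m → F)} (hπ : HV j P κ (mrep σ) π)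
    (hπ' : HV j P κ (mrep σ') π') : tr σ = tr σ' := by
  obtain ⟨w0, hw0⟩ : ∃ w0 : Fin m → F, w0 ≠ 0 := by
    refine ⟨fun _ => 1, fun h => ?_⟩
    have := congrFun h ⟨0, hm⟩
    exact one_ne_zero this
  let R := (mrep σ).prod (mrep σ')
  have hR : ∀ g v, R g v = (mrep σ g v.1, mrep σ' g v.2) := fun g v => rfl
  let Y : Submodule F ((Fin n → F) × (Fin n' → F)) :=
    (fixV (mrep σ) P).comap (LinearMap.fst F _ _) ⊓ (fixV (mrep σ') P).comap (LinearMap.snd F _ _) ⊓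
      LinearMap.ker (π ∘ₗ LinearMap.fst F _ _ - π' ∘ₗ LinearMap.snd F _ _)
  have hY : ∀ v, v ∈ Y ↔ (v.1 ∈ fixV (mrep σ) P ∧ v.2 ∈ fixV (mrep σ') P) ∧ π v.1 = π' v.2 := by
    intro v
    change (_ ∧ _) ∧ π v.1 - π' v.2 = 0 ↔ _
    rw [sub_eq_zero]
    rfl
  have hfix : ∀ v, v ∈ fixV R P ↔ v.1 ∈ fixV (mrep σ) P ∧ v.2 ∈ fixV (mrep σ') P := by
    intro v
    constructor
    · intro h
      exact ⟨fun p hp => congrArg Prod.fst (h p hp), fun p hp => congrArg Prod.snd (h p hp)⟩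
    · rintro ⟨h1, h2⟩ p hp
      exact Prod.ext (h1 p hp) (h2 p hp)
  have hnrm : ∀ v ∈ nrmV R P, v.1 ∈ nrmV (mrep σ) P ∧ v.2 ∈ nrmV (mrep σ') P := by
    have := Fintype.ofFinite P
    rintro _ ⟨u, rfl⟩
    constructor
    · refine ⟨u.1, ?_⟩
      rw [finsum_eq_sum_of_fintype, finsum_eq_sum_of_fintype, LinearMap.sum_apply,
        LinearMap.sum_apply, Prod.fst_sum]
      rfl
    · refine ⟨u.2, ?_⟩
      rw [finsum_eq_sum_of_fintype, finsum_eq_sum_of_fintype, LinearMap.sum_apply,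
        LinearMap.sum_apply, Prod.snd_sum]
      rfl
  have hlt : nrmV R P < Y := by
    refine lt_of_le_of_ne (fun v hv => ?_) (fun heq => ?_)
    · obtain ⟨h1, h2⟩ := hnrm v hv
      have h3 := nrm_le_fix _ _ h1
      have h4 := nrm_le_fix _ _ h2
      rw [hY, (hπ.ker _ h3).2 h1, (hπ'.ker _ h4).2 h2]
      exact ⟨⟨h3, h4⟩, rfl⟩
    · obtain ⟨v, hv, hvw⟩ := hπ.sur w0
      obtain ⟨v', hv', hvw'⟩ := hπ'.sur w0
      have h1 : ((v, v') : (Fin n → F) × (Fin n' → F)) ∈ Y := by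
        rw [hY]
        exact ⟨⟨hv, hv'⟩, hvw.trans hvw'.symm⟩
      rw [← heq] at h1
      have h2 := (hπ.ker v hv).2 (hnrm _ h1).1
      rw [hvw] at h2
      exact hw0 h2
  have hYf : Y ≤ fixV R P := fun v hv => (hfix v).2 ((hY v).1 hv).1
  have hYs : Stb (Subgroup.normalizer (P : Set G)) R Y := by
    intro x hx v hv
    obtain ⟨⟨h1, h2⟩, h3⟩ := (hY v).1 hv
    rw [hY, hR]
    refine ⟨⟨fix_stab _ _ hx h1, fix_stab _ _ hx h2⟩, ?_⟩
    rw [← hj] at hx
    obtain ⟨a, rfl⟩ := hx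
    change π (mrep σ (j a) v.1) = π' (mrep σ' (j a) v.2)
    rw [hπ.int a _ h1, hπ'.int a _ h2, h3]
  have hbR : ∀ v, evV R b v = v := by
    intro v
    have := Fintype.ofFinite G
    have h1 := evV_mrep σ b v.1
    have h2 := evV_mrep σ' b v.2
    rw [hσb, Matrix.one_mulVec] at h1
    rw [hσb', Matrix.one_mulVec] at h2
    unfold evV at h1 h2 ⊢
    rw [finsum_eq_sum_of_fintype, LinearMap.sum_apply] at h1 h2 ⊢
    refine Prod.ext ?_ ?_
    · rw [Prod.fst_sum]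
      exact h1
    · rw [Prod.snd_sum]
      exact h2
  obtain ⟨hs1, hs2, -⟩ := hsoc F G N hb.normal
  have hNs : NSoc N R := hs2 _ _ _ _ (hs1 n σ hσ) (hs1 n' σ' hσ')
  obtain ⟨Z, hZ0, hZs, hZY⟩ := hkey ℓ F hF G N P b hb _ R hbR hNs Y hlt hYf hYs
  have hZg : ∀ g, ∀ v v', (v, v') ∈ Z → ((σ g).mulVec v, (σ' g).mulVec v') ∈ Z := fun g v v' h =>
    hZs g trivial _ h
  -- no vectors in the factors
  have hA : ∀ v, ((v, 0) : (Fin n → F) × (Fin n' → F)) ∈ Z → v = 0 := by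
    intro v hv
    by_contra hv0
    have htop := stab_all hσ (W := Z.comap (LinearMap.inl F _ _)) (fun g u hu => by
      have h1 := hZg g u 0 hu
      rw [Matrix.mulVec_zero] at h1
      exact h1) (v := v) hv hv0
    obtain ⟨u, hu, huw⟩ := hπ.sur w0
    have h1 : ((u, 0) : (Fin n → F) × (Fin n' → F)) ∈ Z := by
      have : u ∈ Z.comap (LinearMap.inl F (Fin n → F) (Fin n' → F)) := by rw [htop]; trivial
      exact this
    have h2 : ((u, 0) : (Fin n → F) × (Fin n' → F)) ∈ Y :=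
      hZY ⟨h1, (hfix _).2 ⟨hu, Submodule.zero_mem _⟩⟩
    have h3 := ((hY _).1 h2).2
    change π u = π' 0 at h3
    rw [map_zero, huw] at h3
    exact hw0 h3
  have hB : ∀ v, ((0, v) : (Fin n → F) × (Fin n' → F)) ∈ Z → v = 0 := by
    intro v hv
    by_contra hv0
    have htop := stab_all hσ' (W := Z.comap (LinearMap.inr F _ _)) (fun g u hu => by
      have h1 := hZg g 0 u hu
      rw [Matrix.mulVec_zero] at h1
      exact h1) (v := v) hv hv0
    obtain ⟨u, hu, huw⟩ := hπ'.sur w0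
    have h1 : ((0, u) : (Fin n → F) × (Fin n' → F)) ∈ Z := by
      have : u ∈ Z.comap (LinearMap.inr F (Fin n → F) (Fin n' → F)) := by rw [htop]; trivial
      exact this
    have h2 : ((0, u) : (Fin n → F) × (Fin n' → F)) ∈ Y :=
      hZY ⟨h1, (hfix _).2 ⟨Submodule.zero_mem _, hu⟩⟩
    have h3 := ((hY _).1 h2).2
    change π 0 = π' u at h3
    rw [map_zero, huw] at h3
    exact hw0 h3.symm
  -- the graph
  obtain ⟨z, hz, hz0⟩ := Submodule.exists_mem_ne_zero_of_ne_bot hZ0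
  have hz1 : z.1 ≠ 0 := by
    intro h
    apply hz0
    have h1 : ((0, z.2) : (Fin n → F) × (Fin n' → F)) ∈ Z := by
      rw [← h]
      exact hz
    exact Prod.ext h (hB _ h1)
  let p1 : Z →ₗ[F] (Fin n → F) := LinearMap.fst F _ _ ∘ₗ Z.subtype
  have hp1 : ∀ z : Z, p1 z = (z : (Fin n → F) × (Fin n' → F)).1 := fun z => rfl
  have hinj : Function.Injective p1 := by
    rw [injective_iff_map_eq_zero]
    intro u hu
    have h1 : ((0, (u : (Fin n → F) × (Fin n' → F)).2) : (Fin n → F) × (Fin n' → F)) ∈ Z := by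
      rw [← hu]
      exact u.2
    exact Subtype.ext (Prod.ext hu (hB _ h1))
  have hsurj : Function.Surjective p1 := by
    rw [← LinearMap.range_eq_top]
    refine stab_all hσ (W := LinearMap.range p1) ?_ (v := z.1) ⟨⟨z, hz⟩, rfl⟩ hz1
    rintro g _ ⟨u, rfl⟩
    exact ⟨⟨_, hZg g _ _ u.2⟩, rfl⟩
  let e := LinearEquiv.ofBijective p1 ⟨hinj, hsurj⟩
  let f : (Fin n → F) →ₗ[F] (Fin n' → F) := LinearMap.snd F _ _ ∘ₗ Z.subtype ∘ₗ e.symm.toLinearMap
  have hf : ∀ v, ((v, f v) : (Fin n → F) × (Fin n' → F)) ∈ Z := by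
    intro v
    have h1 : p1 (e.symm v) = v := e.apply_symm_apply v
    have h2 : ((v, f v) : (Fin n → F) × (Fin n' → F)) = (e.symm v : Z) := by
      refine Prod.ext ?_ rfl
      exact h1.symm
    rw [h2]
    exact (e.symm v).2
  refine CY66.schur_two hσ hσ' f (fun g v => ?_) ?_
  · have h1 := Z.sub_mem (hf ((σ g).mulVec v)) (hZg g v (f v) (hf v))
    have h2 : (((σ g).mulVec v, f ((σ g).mulVec v)) : (Fin n → F) × (Fin n' → F)) -
        ((σ g).mulVec v, (σ' g).mulVec (f v)) =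
        (0, f ((σ g).mulVec v) - (σ' g).mulVec (f v)) := by
      rw [Prod.mk_sub_mk, sub_self]
    rw [h2] at h1
    exact sub_eq_zero.1 (hB _ h1)
  · intro h0
    have h1 := hf z.1
    rw [h0, LinearMap.zero_apply] at h1
    exact hz1 (hA _ h1)

/-- **IND** -/
theorem ind (hibc : IbcStmt) (hsoc : SocStmt) (hkey : KeyStmt) : IndStmt := by
  intro ℓ _ F _ hF G _ _ N P b hb A _ _ j hj n n' σ σ' hσ hσ' hσb hσb' m m' κ κ' π π' hκ hκ' htr
    hπ hπ'
  obtain ⟨X, Y, -, hXY, hYX, hX⟩ := hibc ℓ F hF A m m' κ κ' hκ hκ' htr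
  have hπ1 : HV j P κ' (mrep σ) (Matrix.toLin' X ∘ₗ π) := by
    refine ⟨fun x v hv => ?_, fun v hv => ?_, fun w => ?_⟩
    · rw [LinearMap.comp_apply, LinearMap.comp_apply, Matrix.toLin'_apply, Matrix.toLin'_apply,
        hπ.int x v hv, Matrix.mulVec_mulVec, Matrix.mulVec_mulVec, hX]
    · rw [← hπ.ker v hv, LinearMap.comp_apply, Matrix.toLin'_apply]
      constructor
      · intro h
        have h1 : Y.mulVec (X.mulVec (π v)) = 0 := by rw [h, Matrix.mulVec_zero]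
        rwa [Matrix.mulVec_mulVec, hYX, Matrix.one_mulVec] at h1
      · intro h
        rw [h, Matrix.mulVec_zero]
    · obtain ⟨v, hv, hvw⟩ := hπ.sur (Y.mulVec w)
      refine ⟨v, hv, ?_⟩
      rw [LinearMap.comp_apply, Matrix.toLin'_apply, hvw, Matrix.mulVec_mulVec, hXY,
        Matrix.one_mulVec]
  exact ind_core hsoc hkey hF hb hj hσ hσ' hσb hσb' hκ'.1 hπ1 hπ'

end Pool.Agent.PP.H46
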